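import Pool.Agent.Lib.MP_100a6c_lc.IfaceB

/-!
# HS1: closure properties of `H(θ)` in `V^B`, first part
-/

universe u v

open scoped symmDiff
open Cardinal

namespace Pool.Agent.Lib.MP_100a6c_lc.H19

open Pool.Agent.Lib.MP_100a6c_lc BName

variable {B : Type u} [CompleteBooleanAlgebra B]

/-- The defining formula of `H(θ)`. -/
noncomputable def hf (x : BName B) (Θ : ZFSet.{u}) : B :=
  ⨆ t, (VB B).isTrans t ⊓ (VB B).sub x t ⊓ ⨆ ρ, (VB B).mem ρ (check Θ) ⊓ (VB B).leCard t ρ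

theorem mem_iff {Γ : B} {H : BName B} {Θ : ZFSet.{u}} (h : Γ ≤ (VB B).isH H (check Θ)) {Δ : B}
    (hΔ : Δ ≤ Γ) (x : BName B) : Δ ≤ bmem x H ↔ Δ ≤ hf x Θ := by
  have h1 : Δ ≤ bmem x H ⇔ hf x Θ := (hΔ.trans h).trans (iInf_le _ x)
  rw [le_bihimp_iff'] at h1
  constructor
  · intro h2
    have : Δ = Δ ⊓ bmem x H := (inf_eq_left.2 h2).symm
    rw [this, h1]; exact inf_le_right
  · intro h2
    have : Δ = Δ ⊓ hf x Θ := (inf_eq_left.2 h2).symm
    rw [this, ← h1]; exact inf_le_right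

/-- The existential quantifier over `θ̌`. -/
theorem card_eq (t : BName B) (Θ : ZFSet.{u}) :
    (⨆ ρ, (VB B).mem ρ (check Θ) ⊓ (VB B).leCard t ρ) =
      ⨆ (ρ : ZFSet.{u}) (_ : ρ ∈ Θ), (VB B).leCard t (check ρ) :=
  iSup_VBcheck (ext_leCard_right t) Θ

theorem ext_body (x : BName B) (Θ : ZFSet.{u}) : Ext (fun t : BName B =>
    (VB B).isTrans t ⊓ (VB B).sub x t ⊓ ⨆ ρ, (VB B).mem ρ (check Θ) ⊓ (VB B).leCard t ρ) :=
  (ext_isTrans.inf (ext_sub_right x)).inf
    (Ext.iSup fun _ => (Ext.const _).inf (ext_leCard_left _))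

theorem sub_trans' {Γ : B} {x y z : BName B} (h : Γ ≤ (VB B).sub x y) (h' : Γ ≤ (VB B).sub y z) :
    Γ ≤ (VB B).sub x z := by
  rw [le_sub_iff]
  intro i
  have h1 : Γ ⊓ x.vl i ≤ bmem (x.nm i) y :=
    sub_apply h (x.nm i) inf_le_left (inf_le_right.trans (vl_le_bmem x i))
  exact sub_apply h' (x.nm i) inf_le_left h1

theorem isTrans_apply {Γ : B} {t y : BName B} (h : Γ ≤ (VB B).isTrans t) (hy : Γ ≤ bmem y t) :
    Γ ≤ (VB B).sub y t :=
  iInf_himp_apply h y le_rfl hy

theorem hf_mono {Δ : B} {x y : BName B} {Θ : ZFSet.{u}} (hxy : Δ ≤ (VB B).sub x y)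
    (hy : Δ ≤ hf y Θ) : Δ ≤ hf x Θ := by
  obtain ⟨t, ht⟩ := exists_wit (ext_body y Θ) hy
  refine le_iSup_of_le t (le_inf (le_inf (ht.trans (inf_le_left.trans inf_le_left)) ?_)
    (ht.trans inf_le_right))
  exact sub_trans' hxy (ht.trans (inf_le_left.trans inf_le_right))

theorem hf_trans {Δ : B} {x y : BName B} {Θ : ZFSet.{u}} (hxy : Δ ≤ bmem x y)
    (hy : Δ ≤ hf y Θ) : Δ ≤ hf x Θ := by
  obtain ⟨t, ht⟩ := exists_wit (ext_body y Θ) hy
  refine le_iSup_of_le t (le_inf (le_inf (ht.trans (inf_le_left.trans inf_le_left)) ?_)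
    (ht.trans inf_le_right))
  refine isTrans_apply (ht.trans (inf_le_left.trans inf_le_left)) ?_
  exact sub_apply (ht.trans (inf_le_left.trans inf_le_right)) x le_rfl hxy

theorem isTrans_ord (o : Ordinal.{u}) : (VB B).isTrans (check o.toZFSet) = ⊤ :=
  isTrans_check (ZFSet.isOrdinal_toZFSet o).isTransitive

/-- Monotonicity of the cardinality bound. -/
theorem leCard_mono {Δ : B} {t : BName B} {o : Ordinal.{u}} {d : Cardinal.{u}} (hod : o.card ≤ d)
    (h : Δ ≤ (VB B).leCard t (check o.toZFSet)) : Δ ≤ (VB B).leCard t (check d.ord.toZFSet) := by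
  obtain ⟨e, he⟩ := exists_enum_of_le_leCard o h
  exact le_leCard_of_enum d (by rw [Cardinal.mk_toType]; exact hod) he

/-- A transitive hull bounds `x`. -/
theorem hf_small {c : Cardinal.{u}} (hc : ℵ₀ ≤ c) (hcc : CCov c B) {Θ : ZFSet.{u}}
    (hΘ : V.isReg Θ) (hmu : Mu c ∈ Θ) {Δ : B} {x : BName B} (hx : ∀ z, Δ ⊓ bmem z x ≤ hf z Θ)
    (hcard : Δ ≤ (VB B).leCard x (check (Kap c))) : Δ ≤ hf x Θ := by
  classical
  obtain ⟨c', hc', rfl⟩ := (H77.isReg_iff Θ).1 hΘ
  have hcc' : Order.succ c < c' := by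
    have h1 : (Order.succ c).ord.toZFSet ∈ c'.ord.toZFSet := hmu
    rw [Ordinal.toZFSet_mem_toZFSet_iff, Cardinal.ord_lt_ord] at h1
    exact h1
  have hclt : c < c' := (Order.lt_succ c).trans hcc'
  set K : Type u := c.ord.ToType with hKdef
  have hK : #K = c := by rw [hKdef, Cardinal.mk_ord_toType]
  obtain ⟨t, ht⟩ := exists_enum_type hK hcard
  set w : K → B := fun k => Δ ⊓ bmem (t k) x with hw
  have hwit : ∀ k, ∃ T, w k ≤ (VB B).isTrans T ⊓ (VB B).sub (t k) T ⊓
      ⨆ ρ, (VB B).mem ρ (check c'.ord.toZFSet) ⊓ (VB B).leCard T ρ := fun k =>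
    exists_wit (ext_body (t k) c'.ord.toZFSet) (hx (t k))
  choose T hT using hwit
  -- bound the cardinalities
  have hne : Nonempty {ρ : ZFSet.{u} // ρ ∈ c'.ord.toZFSet} := ⟨⟨_, hmu⟩⟩
  have hfam : ∀ k, ∃ g : K → {ρ : ZFSet.{u} // ρ ∈ c'.ord.toZFSet},
      ⨆ j, w k ⊓ (VB B).leCard (T k) (check (g j).1) =
        ⨆ ρ : {ρ : ZFSet.{u} // ρ ∈ c'.ord.toZFSet}, w k ⊓ (VB B).leCard (T k) (check ρ.1) :=
    fun k => hcc.fam (fun ρ : {ρ : ZFSet.{u} // ρ ∈ c'.ord.toZFSet} =>
      w k ⊓ (VB B).leCard (T k) (check ρ.1)) hK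
  choose g hg using hfam
  have hord : ∀ ρ : {ρ : ZFSet.{u} // ρ ∈ c'.ord.toZFSet}, ∃ o : Ordinal.{u}, o < c'.ord ∧
      o.toZFSet = ρ.1 := by
    rintro ⟨ρ, hρ⟩
    obtain ⟨o, ho, rfl⟩ := Ordinal.mem_toZFSet_iff.1 hρ
    exact ⟨o, ho, rfl⟩
  choose o ho ho' using hord
  set d : Cardinal.{u} := max c (⨆ p : K × K, (o (g p.1 p.2)).card) with hd
  have hKK : #(K × K) < c' := by
    rw [← Cardinal.mul_def, hK, Cardinal.mul_eq_self hc]
    exact hclt
  have hdlt : d < c' := by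
    refine max_lt hclt ?_
    refine Cardinal.iSup_lt_of_isRegular hc' hKK fun p => ?_
    exact Cardinal.lt_ord.1 (ho _)
  have hcd : c ≤ d := le_max_left _ _
  have hdle : ∀ k j, (o (g k j)).card ≤ d := fun k j =>
    (le_ciSup (f := fun p : K × K => (o (g p.1 p.2)).card)
      Cardinal.bddAbove_of_small (k, j)).trans (le_max_right _ _)
  have hwd : ∀ k, w k ≤ (VB B).leCard (T k) (check d.ord.toZFSet) := by
    intro k
    have h1 : w k ≤ ⨆ ρ : {ρ : ZFSet.{u} // ρ ∈ c'.ord.toZFSet},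
        w k ⊓ (VB B).leCard (T k) (check ρ.1) := by
      rw [← inf_iSup_eq]
      refine le_inf le_rfl ?_
      refine ((hT k).trans inf_le_right).trans ?_
      rw [card_eq]
      exact iSup_le fun ρ => iSup_le fun hρ =>
        le_iSup (fun ρ : {ρ : ZFSet.{u} // ρ ∈ c'.ord.toZFSet} =>
          (VB B).leCard (T k) (check ρ.1)) ⟨ρ, hρ⟩
    rw [← hg k] at h1
    refine h1.trans (iSup_le fun j => ?_)
    refine leCard_mono (o := o (g k j)) (hdle k j) ?_
    rw [ho']
    exact inf_le_right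
  set D : Type u := d.ord.ToType with hDdef
  have hD : #D = d := by rw [hDdef, Cardinal.mk_ord_toType]
  have hen : ∀ k, ∃ u : D → BName B, Enum (w k) (T k) u := fun k => exists_enum_type hD (hwd k)
  choose e he using hen
  -- the union
  let f : Option K → BName B := fun i => i.elim x T
  let r : Option K → B := fun i => i.elim ⊤ w
  let W : BName B := uni f r
  have hW : ∀ z, bmem z W = bmem z x ⊔ ⨆ k, w k ⊓ bmem z (T k) := by
    intro z
    rw [mem_uni, iSup_option]
    simp only [f, r, Option.elim_none, Option.elim_some, top_inf_eq]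
  refine le_iSup_of_le W (le_inf (le_inf ?_ ?_) ?_)
  · -- transitive
    refine le_iInf fun y => ?_
    rw [le_himp_iff, VB_mem, hW, inf_sup_left]
    have hTW : ∀ k, w k ≤ (VB B).sub (T k) W := by
      intro k
      rw [le_sub_iff]
      intro i
      rw [hW]
      refine le_sup_of_le_right (le_iSup_of_le k ?_)
      exact inf_le_inf_left _ (vl_le_bmem _ _)
    refine sup_le ?_ ?_
    · refine (le_inf le_rfl (ht y)).trans ?_
      rw [inf_iSup_eq]
      refine iSup_le fun k => ?_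
      have h1 : Δ ⊓ bmem y x ⊓ beq y (t k) ≤ w k :=
        le_inf (inf_le_left.trans inf_le_left)
          ((ext_mem_left x).of_le (x := y) inf_le_right (inf_le_left.trans inf_le_right))
      have h2 : Δ ⊓ bmem y x ⊓ beq y (t k) ≤ (VB B).sub y (T k) := by
        refine (ext_sub_left (T k)).of_le' (x := t k) inf_le_right ?_
        exact h1.trans ((hT k).trans (inf_le_left.trans inf_le_right))
      exact sub_trans' h2 (h1.trans (hTW k))
    · rw [inf_iSup_eq]
      refine iSup_le fun k => ?_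
      have h1 : Δ ⊓ (w k ⊓ bmem y (T k)) ≤ w k := inf_le_right.trans inf_le_left
      refine sub_trans' (isTrans_apply (h1.trans ((hT k).trans (inf_le_left.trans inf_le_left)))
        (inf_le_right.trans inf_le_right)) (h1.trans (hTW k))
  · refine le_sub_iff.2 fun i => ?_
    rw [hW]
    exact le_sup_of_le_left (inf_le_right.trans (vl_le_bmem x i))
  · rw [card_eq]
    refine le_iSup_of_le d.ord.toZFSet (le_iSup_of_le ?_ ?_)
    · rw [Ordinal.toZFSet_mem_toZFSet_iff, Cardinal.ord_lt_ord]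
      exact hdlt
    · refine le_leCard_of_enum (Y := K ⊕ (K × D))
        (t := fun y => Sum.elim t (fun p => e p.1 p.2) y) d ?_ ?_
      · rw [Cardinal.mk_sum, Cardinal.mk_prod]
        simp only [Cardinal.lift_id]
        rw [hK, hD]
        have hd0 : ℵ₀ ≤ d := hc.trans hcd
        calc c + c * d ≤ d + d * d := by gcongr
          _ = d := by rw [Cardinal.mul_eq_self hd0, Cardinal.add_eq_self hd0]
      · intro z
        rw [hW, inf_sup_left]
        refine sup_le ?_ ?_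
        · refine (ht z).trans (iSup_le fun k => ?_)
          exact le_iSup (fun y : K ⊕ (K × D) => beq z (Sum.elim t (fun p => e p.1 p.2) y))
            (Sum.inl k)
        · rw [inf_iSup_eq]
          refine iSup_le fun k => ?_
          refine inf_le_right.trans ((he k z).trans (iSup_le fun j => ?_))
          exact le_iSup (fun y : K ⊕ (K × D) => beq z (Sum.elim t (fun p => e p.1 p.2) y))
            (Sum.inr (k, j))

theorem hs1 : HS1Statement.{u} := by
  intro B _ c hc hcc Γ H Θ hΘ hmu hH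
  refine ⟨?_, ?_, ?_, ?_⟩
  · intro Δ hΔ x y hxy hy
    rw [mem_iff hH hΔ] at hy ⊢
    exact hf_mono hxy hy
  · intro Δ hΔ x y hxy hy
    rw [mem_iff hH hΔ] at hy ⊢
    exact hf_trans hxy hy
  · rw [mem_iff hH le_rfl]
    refine le_iSup_of_le (check (Mu c)) (le_inf (le_inf ?_ ?_) ?_)
    · rw [Mu, isTrans_ord]; exact le_top
    · rw [sub_check_of_subset (fun _ h => h)]; exact le_top
    · rw [card_eq]
      refine le_iSup_of_le (Mu c) (le_iSup_of_le hmu ?_)
      refine le_trans ?_ (sub_le_leCard _ _)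
      rw [sub_check_of_subset (fun _ h => h)]; exact le_top
  · intro Δ hΔ x hxH hcard
    rw [mem_iff hH hΔ]
    refine hf_small hc hcc hΘ hmu (fun z => ?_) hcard
    rw [← mem_iff hH (inf_le_left.trans hΔ)]
    exact sub_apply hxH z inf_le_left inf_le_right

end Pool.Agent.Lib.MP_100a6c_lc.H19
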